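import Mathlib
import Pool.Agent.W14.US.Stm

set_option autoImplicit false
open Complex MeasureTheory
open scoped ContDiff

namespace Pool.Agent.W582.US
open Pool.Agent.W14.US

theorem smooth_fd {k : ℂ → ℂ} (hk : ContDiff ℝ ∞ k) (v : ℂ) :
    ContDiff ℝ ∞ (fun z => fderiv ℝ k z v) := by
  have h1 : ContDiff ℝ ∞ (fderiv ℝ k) := hk.fderiv_right (by simp)
  exact h1.clm_apply contDiff_const

theorem Ad_lin {k : ℂ → ℂ} (hk : Ad k) (a : ℂ) :
    Ad (fun z => (fderiv ℝ k z 1 + a * fderiv ℝ k z I) / 2) := by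
  obtain ⟨h1, h2⟩ := hk
  refine ⟨?_, ?_⟩
  · exact ((smooth_fd h1 1).add (contDiff_const.mul (smooth_fd h1 I))).div_const 2
  · have h3 : HasCompactSupport (fderiv ℝ k) := h2.fderiv ℝ
    apply h3.mono
    intro z hz
    by_contra hn
    apply hz
    have : fderiv ℝ k z = 0 := by simpa using hn
    simp [this]

theorem co_smooth (b : Bool) : ContDiff ℝ ∞ (co b) := by
  cases b
  · have : co false = fun z : ℂ => reCLM z := by funext z; simp [co]
    rw [this]; exact reCLM.contDiff
  · have : co true = fun z : ℂ => imCLM z := by funext z; simp [co]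
    rw [this]; exact imCLM.contDiff

/-- the derivative of `co b`. -/
noncomputable def coL (b : Bool) : ℂ →L[ℝ] ℝ := if b then imCLM else reCLM

theorem co_eq (b : Bool) : co b = fun z : ℂ => coL b z := by
  funext z; cases b <;> simp [co, coL]

theorem hasD (b : Bool) {h : ℝ → ℝ} (hh : ContDiff ℝ ∞ h) (z : ℂ) :
    HasFDerivAt (fun z : ℂ => ((h (co b z) : ℝ) : ℂ))
      (ofRealCLM.comp ((deriv h (co b z)) • coL b)) z := by
  have h1 : HasDerivAt h (deriv h (co b z)) (co b z) :=
    (hh.differentiable (by simp) (co b z)).hasDerivAt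
  have h2 : HasFDerivAt (co b) (coL b) z := by
    rw [co_eq b]; exact (coL b).hasFDerivAt
  have h3 : HasFDerivAt (fun z => h (co b z)) ((deriv h (co b z)) • coL b) z :=
    h1.comp_hasFDerivAt z h2
  exact ofRealCLM.hasFDerivAt.comp z h3

theorem fd_mul (b : Bool) {h : ℝ → ℝ} {k : ℂ → ℂ} (hh : ContDiff ℝ ∞ h) (hk : ContDiff ℝ ∞ k)
    (z v : ℂ) : fderiv ℝ (fun z => k z * ((h (co b z) : ℝ) : ℂ)) z v =
      fderiv ℝ k z v * ((h (co b z) : ℝ) : ℂ) +
        k z * ((deriv h (co b z) : ℝ) : ℂ) * ((coL b v : ℝ) : ℂ) := by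
  have h1 : HasFDerivAt k (fderiv ℝ k z) z := (hk.differentiable (by simp) z).hasFDerivAt
  have h2 := h1.mul (hasD b hh z)
  have h3 : fderiv ℝ (fun z => k z * ((h (co b z) : ℝ) : ℂ)) z = _ := h2.fderiv
  rw [h3]
  simp only [add_apply, smul_apply,
    ContinuousLinearMap.comp_apply, smul_eq_mul, ofRealCLM_apply]
  push_cast
  ring

theorem calcRules : S_CALC := by
  intro b h k hh hk
  refine ⟨?_, ?_, ?_, ?_, ?_⟩
  · exact Ad_lin hk I
  · have := Ad_lin hk (-I)
    have e : dd k = fun z => (fderiv ℝ k z 1 + -I * fderiv ℝ k z I) / 2 := by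
      funext z; simp only [dd]; ring
    rw [e]; exact this
  · refine ⟨?_, hk.2.mul_right⟩
    exact hk.1.mul (ofRealCLM.contDiff.comp (hh.comp (co_smooth b)))
  · intro z
    simp only [db, fd_mul b hh hk.1]
    cases b <;> simp [coL] <;> ring_nf
  · intro z
    simp only [dd, fd_mul b hh hk.1]
    cases b <;> simp [coL] <;> ring_nf

end Pool.Agent.W582.US
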